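import Pool.Agent.W633.LT.Stm2

/-!
# The tent functions
-/

set_option autoImplicit false

namespace Pool.Agent.W21.LG

open W633.LT

/-- left end -/
def pa (i : ℕ) : ℚ := 1 / (2 * i + 3)

/-- top -/
def pb (i : ℕ) : ℚ := 1 / (2 * i + 2)

/-- right end -/
def pc (i : ℕ) : ℚ := 1 / (2 * i + 1)

/-- the tent -/
def g (i : ℕ) (q : ℚ) : ℚ := max 0 (min ((2 * i + 3) * q - 1) (1 - (2 * i + 1) * q))

theorem pa_mul (i : ℕ) : (2 * i + 3) * pa i = 1 := by
  unfold pa
  have : (2 * (i : ℚ) + 3) ≠ 0 := by positivity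
  field_simp

theorem pb_mul (i : ℕ) : (2 * i + 2) * pb i = 1 := by
  unfold pb
  have : (2 * (i : ℚ) + 2) ≠ 0 := by positivity
  field_simp

theorem pc_mul (i : ℕ) : (2 * i + 1) * pc i = 1 := by
  unfold pc
  have : (2 * (i : ℚ) + 1) ≠ 0 := by positivity
  field_simp

theorem pa_pos (i : ℕ) : 0 < pa i := by
  unfold pa
  positivity

theorem pa_lt (i : ℕ) : pa i < pb i := by
  unfold pa pb
  apply one_div_lt_one_div_of_lt (by positivity)
  linarith

theorem pb_lt (i : ℕ) : pb i < pc i := by
  unfold pc pb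
  apply one_div_lt_one_div_of_lt (by positivity)
  linarith

theorem pc_le (i : ℕ) : pc i ≤ 1 := by
  unfold pc
  rw [div_le_one (by positivity)]
  have : (0 : ℚ) ≤ i := Nat.cast_nonneg i
  linarith

theorem g1 (i : ℕ) {q : ℚ} (h : q ≤ pa i) : g i q = 0 := by
  unfold g
  have h1 : (2 * (i : ℚ) + 3) * q ≤ 1 :=
    (mul_le_mul_of_nonneg_left h (by positivity)).trans (pa_mul i).le
  exact max_eq_left ((min_le_left _ _).trans (by linarith))

theorem g4 (i : ℕ) {q : ℚ} (h : pc i ≤ q) : g i q = 0 := by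
  unfold g
  have h1 : 1 ≤ (2 * (i : ℚ) + 1) * q :=
    (pc_mul i).ge.trans (mul_le_mul_of_nonneg_left h (by positivity))
  exact max_eq_left ((min_le_right _ _).trans (by linarith))

theorem g2 (i : ℕ) {q : ℚ} (h : pa i ≤ q) (h' : q ≤ pb i) : g i q = (2 * i + 3) * q - 1 := by
  unfold g
  have h1 : 1 ≤ (2 * (i : ℚ) + 3) * q :=
    (pa_mul i).ge.trans (mul_le_mul_of_nonneg_left h (by positivity))
  have h2 : (2 * (i : ℚ) + 2) * q ≤ 1 :=
    (mul_le_mul_of_nonneg_left h' (by positivity)).trans (pb_mul i).le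
  rw [min_eq_left (by linarith), max_eq_right (by linarith)]

theorem g3 (i : ℕ) {q : ℚ} (h : pb i ≤ q) (h' : q ≤ pc i) : g i q = 1 - (2 * i + 1) * q := by
  unfold g
  have h1 : 1 ≤ (2 * (i : ℚ) + 2) * q :=
    (pb_mul i).ge.trans (mul_le_mul_of_nonneg_left h (by positivity))
  have h2 : (2 * (i : ℚ) + 1) * q ≤ 1 :=
    (mul_le_mul_of_nonneg_left h' (by positivity)).trans (pc_mul i).le
  rw [min_eq_right (by linarith), max_eq_right (by linarith)]

/-- the subdivision -/
def SS (i : ℕ) : Subdiv where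
  pts := {q | (∃ z : ℤ, q = z) ∨ ∃ z : ℤ, q - 2 * z = pa i ∨ q - 2 * z = pb i ∨ q - 2 * z = pc i}
  int_mem := fun n => Or.inl ⟨n, rfl⟩
  periodic := by
    intro q
    constructor
    · rintro (⟨z, h⟩ | ⟨z, h⟩)
      · exact Or.inl ⟨z + 2, by push_cast; linarith⟩
      · refine Or.inr ⟨z + 1, ?_⟩
        have : q + 2 - 2 * ((z + 1 : ℤ) : ℚ) = q - 2 * z := by push_cast; ring
        rw [this]
        exact h
    · rintro (⟨z, h⟩ | ⟨z, h⟩)
      · exact Or.inl ⟨z - 2, by push_cast; linarith⟩
      · refine Or.inr ⟨z - 1, ?_⟩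
        have : q - 2 * ((z - 1 : ℤ) : ℚ) = q + 2 - 2 * z := by push_cast; ring
        rw [this]
        exact h
  finite := by
    refine Set.Finite.subset (s := {0, 1, 2, pa i, pb i, pc i}) (Set.toFinite _) ?_
    rintro q ⟨h | ⟨z, h⟩, h0, h2⟩
    · obtain ⟨z, rfl⟩ := h
      have h0' : 0 ≤ z := by exact_mod_cast h0
      have h2' : z ≤ 2 := by exact_mod_cast h2
      interval_cases z <;> simp
    · have p1 := pa_pos i
      have p2 := pa_lt i
      have p3 := pb_lt i
      have p4 := pc_le i
      have hz1 : 0 < q - 2 * (z : ℚ) ∧ q - 2 * (z : ℚ) ≤ 1 := by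
        rcases h with h | h | h <;> rw [h] <;> constructor <;> linarith
      have hz2 : z < 1 := by
        have : (z : ℚ) < 1 := by linarith
        exact_mod_cast this
      have hz3 : -1 < z := by
        have : (-1 : ℚ) < z := by linarith
        exact_mod_cast this
      have hz : z = 0 := by omega
      subst hz
      simp only [Int.cast_zero, mul_zero, sub_zero] at h
      simp only [Set.mem_insert_iff, Set.mem_singleton_iff]
      tauto

/-- the function -/
def fn (i : ℕ) (q : ℚ) : ℚ := g i (q - 4 * ⌊q / 4⌋)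

theorem fn_per (i : ℕ) (q : ℚ) : fn i (q + 4) = fn i q := by
  unfold fn
  have : ⌊(q + 4) / 4⌋ = ⌊q / 4⌋ + 1 := by
    rw [show (q + 4) / 4 = q / 4 + 1 by ring, Int.floor_add_one]
  rw [this]
  congr 1
  push_cast
  ring

theorem fn_eq (i : ℕ) (z : ℤ) {q : ℚ} (h : 4 * z ≤ q) (h' : q ≤ 4 * z + 4) :
    fn i q = g i (q - 4 * z) := by
  unfold fn
  rcases lt_or_eq_of_le h' with h1 | h1
  · have : ⌊q / 4⌋ = z := by
      rw [Int.floor_eq_iff]
      constructor
      · linarith
      · linarith
    rw [this]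
  · have : ⌊q / 4⌋ = z + 1 := by
      rw [Int.floor_eq_iff]
      push_cast
      constructor
      · linarith
      · linarith
    rw [this, g1 i (q := q - 4 * ((z + 1 : ℤ) : ℚ)), g4 i (q := q - 4 * z)]
    · have := pc_le i
      linarith
    · have := pa_pos i
      push_cast
      linarith

theorem int_pt (i : ℕ) (z : ℤ) : (z : ℚ) ∈ (SS i).pts := (SS i).int_mem z

theorem a_pt (i : ℕ) (z : ℤ) : pa i + 4 * z ∈ (SS i).pts :=
  Or.inr ⟨2 * z, Or.inl (by push_cast; ring)⟩

theorem b_pt (i : ℕ) (z : ℤ) : pb i + 4 * z ∈ (SS i).pts :=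
  Or.inr ⟨2 * z, Or.inr (Or.inl (by push_cast; ring))⟩

theorem c_pt (i : ℕ) (z : ℤ) : pc i + 4 * z ∈ (SS i).pts :=
  Or.inr ⟨2 * z, Or.inr (Or.inr (by push_cast; ring))⟩

theorem sep {i : ℕ} {l r : ℚ} (h : ∀ q ∈ (SS i).pts, ¬ (l < q ∧ q < r)) {q : ℚ}
    (hq : q ∈ (SS i).pts) : q ≤ l ∨ r ≤ q := by
  by_contra h1
  push Not at h1
  exact h q hq h1

theorem aff (i : ℕ) {l r : ℚ} (_ : l ≤ r) (h : ∀ q ∈ (SS i).pts, ¬ (l < q ∧ q < r)) :
    ∃ m : ℤ × ℤ, ∀ q, l ≤ q → q ≤ r → fn i q = m.1 * q + m.2 := by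
  set z := ⌊l / 4⌋ with hz
  have h1 : (z : ℚ) ≤ l / 4 := Int.floor_le _
  have h2 : l / 4 < z + 1 := Int.lt_floor_add_one _
  have h3 : r ≤ 4 * z + 4 := by
    rcases sep h (int_pt i (4 * z + 4)) with h3 | h3
    · push_cast at h3
      linarith
    · push_cast at h3
      exact h3
  have hfn : ∀ q, l ≤ q → q ≤ r → fn i q = g i (q - 4 * z) := fun q hq hq' =>
    fn_eq i z (by linarith) (by linarith)
  rcases sep h (a_pt i z) with ha | ha
  swap
  · refine ⟨(0, 0), fun q hq hq' => ?_⟩
    rw [hfn q hq hq', g1 i (by linarith)]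
    simp
  rcases sep h (b_pt i z) with hb | hb
  swap
  · refine ⟨(2 * i + 3, -(2 * i + 3) * (4 * z) - 1), fun q hq hq' => ?_⟩
    rw [hfn q hq hq', g2 i (by linarith) (by linarith)]
    push_cast
    ring
  rcases sep h (c_pt i z) with hc | hc
  swap
  · refine ⟨(-(2 * i + 1), (2 * i + 1) * (4 * z) + 1), fun q hq hq' => ?_⟩
    rw [hfn q hq hq', g3 i (by linarith) (by linarith)]
    push_cast
    ring
  · refine ⟨(0, 0), fun q hq hq' => ?_⟩
    rw [hfn q hq hq', g4 i (by linarith)]
    simp

theorem slope {f : ℚ → ℚ} {l r : ℚ} (hlr : l < r) {m m' : ℤ × ℤ}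
    (h : ∀ q, l ≤ q → q ≤ r → f q = m.1 * q + m.2)
    (h' : ∀ q, l ≤ q → q ≤ r → f q = m'.1 * q + m'.2) : m.1 = m'.1 := by
  have e1 := (h l le_rfl hlr.le).symm.trans (h' l le_rfl hlr.le)
  have e2 := (h r hlr.le le_rfl).symm.trans (h' r hlr.le le_rfl)
  have e3 : ((m.1 : ℚ) - m'.1) * (r - l) = 0 := by linear_combination e2 - e1
  have e4 : (m.1 : ℚ) - m'.1 = 0 := (mul_eq_zero.1 e3).resolve_right (by linarith)
  exact_mod_cast sub_eq_zero.1 e4

/-- The statement (with rational `q` in the last hypothesis). -/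
def TentQ : Prop := ∀ i : ℕ, ∃ (S : Subdiv) (fn : ℚ → ℚ), (∀ q, fn (q + 4) = fn q) ∧
  (∀ x : Chart S, ∃ m : ℤ × ℤ, ∀ q, x.1.l ≤ q → q ≤ x.1.r → fn q = m.1 * q + m.2) ∧
  ∀ (j : ℕ) (z : ℕ) (l r : ℚ), z ≤ 1 → Adm S (1 / (2 * j + 2) + 2 * z) l r → ∀ m m' : ℤ × ℤ,
    (∀ q : ℚ, l ≤ q → q ≤ 1 / (2 * j + 2) + 2 * z → fn q = m.1 * q + m.2) →
    (∀ q : ℚ, 1 / (2 * j + 2) + 2 * z ≤ q → q ≤ r → fn q = m'.1 * q + m'.2) →
    m.1 - m'.1 = if j = i ∧ z = 0 then 2 * (2 * i + 2) else 0

theorem tent : TentQ := by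
  intro i
  refine ⟨SS i, fn i, fn_per i, fun x => aff i x.2.1 x.2.2, ?_⟩
  intro j z l r hz hadm m m' hm hm'
  obtain ⟨hl, hr, hL, hR⟩ := hadm
  have p1 := pa_pos i
  have p2 := pa_lt i
  have p3 := pb_lt i
  have p4 := pc_le i
  have hj1 : (0 : ℚ) < 1 / (2 * j + 2) := by positivity
  have hj2 : (1 : ℚ) / (2 * j + 2) ≤ 1 / 2 := by
    apply one_div_le_one_div_of_le (by norm_num)
    have : (0 : ℚ) ≤ j := Nat.cast_nonneg j
    linarith
  have hz' : z = 0 ∨ z = 1 := by omega
  rcases hz' with rfl | rfl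
  · simp only [Nat.cast_zero, mul_zero, add_zero] at hl hr hL hR hm hm'
    by_cases hji : j = i
    · subst hji
      rw [if_pos ⟨rfl, rfl⟩]
      have hv : (1 : ℚ) / (2 * j + 2) = pb j := rfl
      rw [hv] at hl hr hL hR hm hm'
      have ha := a_pt j 0
      have hc := c_pt j 0
      simp only [Int.cast_zero, mul_zero, add_zero] at ha hc
      have h1 : pa j ≤ l := by
        rcases sep hL ha with h | h
        · exact h
        · linarith
      have h2 : r ≤ pc j := by
        rcases sep hR hc with h | h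
        · linarith
        · exact h
      have e1 : m.1 = 2 * j + 3 := by
        refine slope (f := fn j) hl hm (m' := (2 * j + 3, -1)) fun q hq hq' => ?_
        rw [fn_eq j 0 (by push_cast; linarith) (by push_cast; linarith), g2 j]
        · push_cast
          ring
        · push_cast
          linarith
        · push_cast
          linarith
      have e2 : m'.1 = -(2 * j + 1) := by
        refine slope (f := fn j) hr hm' (m' := (-(2 * j + 1), 1)) fun q hq hq' => ?_
        rw [fn_eq j 0 (by push_cast; linarith) (by push_cast; linarith), g3 j]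
        · push_cast
          ring
        · push_cast
          linarith
        · push_cast
          linarith
      rw [e1, e2]
      push_cast
      ring
    · rw [if_neg (fun h => hji h.1)]
      have hnot : (1 : ℚ) / (2 * j + 2) ∉ (SS i).pts := by
        rintro (⟨z, h⟩ | ⟨z, h⟩)
        · have h1 : (0 : ℚ) < z := by rw [← h]; exact hj1
          have h2 : (z : ℚ) < 1 := by rw [← h]; linarith
          have h3 : 0 < z := by exact_mod_cast h1
          have h4 : z < 1 := by exact_mod_cast h2
          omega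
        · have hz1 : 0 < (1 : ℚ) / (2 * j + 2) - 2 * (z : ℚ) ∧
              (1 : ℚ) / (2 * j + 2) - 2 * (z : ℚ) ≤ 1 := by
            rcases h with h | h | h <;> rw [h] <;> constructor <;> linarith
          have hz2 : z < 1 := by
            have : (z : ℚ) < 1 := by linarith
            exact_mod_cast this
          have hz3 : -1 < z := by
            have : (-1 : ℚ) < z := by linarith
            exact_mod_cast this
          have hz : z = 0 := by omega
          subst hz
          simp only [Int.cast_zero, mul_zero, sub_zero] at h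
          have hjj : (2 * (j : ℚ) + 2) * (1 / (2 * j + 2)) = 1 := by
            have : (2 * (j : ℚ) + 2) ≠ 0 := by positivity
            field_simp
          rcases h with h | h | h
          · rw [h] at hjj
            have h5 := pa_mul i
            have h6 : (2 * (j : ℚ) + 2) = 2 * i + 3 := by
              have : ((2 * (j : ℚ) + 2) - (2 * i + 3)) * pa i = 0 := by linarith
              have := (mul_eq_zero.1 this).resolve_right p1.ne'
              linarith
            have h7 : 2 * j + 2 = 2 * i + 3 := by exact_mod_cast h6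
            omega
          · rw [h] at hjj
            have h5 := pb_mul i
            have h6 : (2 * (j : ℚ) + 2) = 2 * i + 2 := by
              have : ((2 * (j : ℚ) + 2) - (2 * i + 2)) * pb i = 0 := by linarith
              have := (mul_eq_zero.1 this).resolve_right (by linarith)
              linarith
            have h7 : 2 * j + 2 = 2 * i + 2 := by exact_mod_cast h6
            omega
          · rw [h] at hjj
            have h5 := pc_mul i
            have h6 : (2 * (j : ℚ) + 2) = 2 * i + 1 := by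
              have : ((2 * (j : ℚ) + 2) - (2 * i + 1)) * pc i = 0 := by linarith
              have := (mul_eq_zero.1 this).resolve_right (by linarith)
              linarith
            have h7 : 2 * j + 2 = 2 * i + 1 := by exact_mod_cast h6
            omega
      have hall : ∀ q ∈ (SS i).pts, ¬ (l < q ∧ q < r) := by
        rintro q hq ⟨h1, h2⟩
        rcases lt_trichotomy q (1 / (2 * j + 2)) with h3 | h3 | h3
        · exact hL q hq ⟨h1, h3⟩
        · exact hnot (h3 ▸ hq)
        · exact hR q hq ⟨h3, h2⟩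
      obtain ⟨m'', hm''⟩ := aff i (hl.trans hr).le hall
      have e1 : m.1 = m''.1 := slope hl hm fun q hq hq' => hm'' q hq (hq'.trans hr.le)
      have e2 : m'.1 = m''.1 := slope hr hm' fun q hq hq' => hm'' q (hl.le.trans hq) hq'
      rw [e1, e2, sub_self]
      simp
  · rw [if_neg (fun h => one_ne_zero h.2)]
    simp only [Nat.cast_one, mul_one] at hl hr hL hR hm hm'
    have h2 := int_pt i 2
    have h3 := int_pt i 3
    push_cast at h2 h3
    have k1 : 2 ≤ l := by
      rcases sep hL h2 with h | h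
      · exact h
      · linarith
    have k2 : r ≤ 3 := by
      rcases sep hR h3 with h | h
      · linarith
      · exact h
    have e1 : m.1 = 0 := by
      refine slope (f := fn i) hl hm (m' := (0, 0)) fun q hq hq' => ?_
      rw [fn_eq i 0 (by push_cast; linarith) (by push_cast; linarith), g4 i]
      · simp
      · push_cast
        linarith
    have e2 : m'.1 = 0 := by
      refine slope (f := fn i) hr hm' (m' := (0, 0)) fun q hq hq' => ?_
      rw [fn_eq i 0 (by push_cast; linarith) (by push_cast; linarith), g4 i]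
      · simp
      · push_cast
        linarith
    rw [e1, e2, sub_self]
    simp

end Pool.Agent.W21.LG
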