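import Pool.Agent.W21.LG.Tent

/-!
# The tent functions, corrected statement
-/

set_option autoImplicit false

namespace Pool.Agent.W21.LG

open W633.LT

theorem tentNew : W633.LT.Tent := by
  intro i
  obtain ⟨S, fn, h1, h2, h3⟩ := tent i
  refine ⟨S, fn, h1, h2, ?_⟩
  intro j z v l r hz hv hadm m m' hm hm'
  subst hv
  have h4 := h3 j z l r hz hadm m m' hm hm'
  rw [h4]
  split_ifs <;> push_cast <;> rfl

end Pool.Agent.W21.LG
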